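import Mathlib
import Pool.Agent.H.MP_c0f49b_an.A

namespace Pool.Agent.Results.MP_c0f49b_an.Yes

open Filter Topology ZeroAtInfty

/-- the Takagi function -/
noncomputable def takagi (t : ℝ) : ℝ :=
  ∑' n : ℕ, (1 / 2 : ℝ) ^ n * Metric.infDist (2 ^ n * t) (Set.range ((↑) : ℤ → ℝ))

/-- the backward shift on null sequences -/
noncomputable def shift {𝕜 : Type} [RCLike 𝕜] (x : C₀(ℕ, 𝕜)) : C₀(ℕ, 𝕜) :=
  ⟨⟨fun n => x (n + 1), continuous_of_discreteTopology⟩, x.zero_at_infty'.comp (by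
    rw [H.MP_c0f49b_an.cocp]; exact tendsto_add_atTop_nat 1)⟩

/-- the operator `e^x B × e^y B` -/
noncomputable def op {𝕜 : Type} [RCLike 𝕜] (x y : ℝ) (p : C₀(ℕ, 𝕜) × C₀(ℕ, 𝕜)) :
    C₀(ℕ, 𝕜) × C₀(ℕ, 𝕜) :=
  (((Real.exp x : ℝ) : 𝕜) • shift p.1, ((Real.exp y : ℝ) : 𝕜) • shift p.2)

theorem result (𝕜 : Type) [RCLike 𝕜] (a b : ℝ) (ha : 0 < a) (hb : 0 < b) :
    ∃ v : C₀(ℕ, 𝕜) × C₀(ℕ, 𝕜), ∀ t ∈ Set.Icc (0 : ℝ) 1,
      DenseRange fun n : ℕ => (op (a + t) (b + takagi t))^[n] v := by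
  obtain ⟨x, hx⟩ := H.MP_c0f49b_an.main (𝕜 := 𝕜) ha hb
  refine ⟨(x 0, x 1), fun t ht => Metric.denseRange_iff.2 fun u η hη => ?_⟩
  obtain ⟨k, hk⟩ := hx t ht ![u.1, u.2] (η / 2) (by linarith)
  have it : ∀ (l m : ℝ) (k : ℕ) (p : C₀(ℕ, 𝕜) × C₀(ℕ, 𝕜)) (n : ℕ),
      ((op l m)^[k] p).1 n = ((Real.exp (k * l) : ℝ) : 𝕜) * p.1 (n + k) ∧
      ((op l m)^[k] p).2 n = ((Real.exp (k * m) : ℝ) : 𝕜) * p.2 (n + k) := by
    intro l m k p
    induction k with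
    | zero => intro n; simp
    | succ k ih =>
      intro n
      rw [Function.iterate_succ_apply']
      have e : ∀ (c : ℝ) (z : 𝕜), ((Real.exp c : ℝ) : 𝕜) * (((Real.exp (k * c) : ℝ) : 𝕜) * z) =
          ((Real.exp ((k + 1 : ℕ) * c) : ℝ) : 𝕜) * z := fun c z => by
        rw [← mul_assoc, ← RCLike.ofReal_mul, ← Real.exp_add]
        congr 3; push_cast; ring
      rw [← e, ← e, show n + (k + 1) = n + 1 + k by omega, ← (ih (n + 1)).1, ← (ih (n + 1)).2]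
      exact ⟨rfl, rfl⟩
  have dl : ∀ f g : C₀(ℕ, 𝕜), (∀ n, ‖g n - f n‖ ≤ η / 2) → dist f g < η := fun f g h => by
    rw [← ZeroAtInftyContinuousMap.dist_toBCF_eq_dist]
    refine lt_of_le_of_lt ((BoundedContinuousFunction.dist_le (C := η / 2) (by linarith)).2
      fun n => ?_) (by linarith)
    rw [dist_comm, dist_eq_norm]
    exact h n
  refine ⟨k, ?_⟩
  rw [Prod.dist_eq, max_lt_iff]
  exact ⟨dl _ _ fun n => by rw [(it _ _ _ _ n).1]; exact hk 0 n,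
    dl _ _ fun n => by rw [(it _ _ _ _ n).2]; exact hk 1 n⟩

end Pool.Agent.Results.MP_c0f49b_an.Yes
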